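import Mathlib
import Pool.Agent.W671.WI3

/-!
# Uniform bounds for inverses in the Wiener algebra of the disc

For analytic `f(z) = ∑ a_n z^n` in the disc with `∑ |a_n| = 1` and `|f| ≥ δ`, the best bound for the
sum of the absolute values of the Taylor coefficients of `1 / f` is `1 / (2 δ - 1)` if `δ > 1/2`, and
there is no uniform bound if `δ ≤ 1/2`.
-/

set_option autoImplicit false

open Finset Filter Topology
open scoped ENNReal

namespace Pool.Agent.Results.MP_de3d06_an.ExactConstant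

/-! ### The definitions of the statement -/

/-- The norm `‖f‖_W = ∑ |a_n|`, in `[0, ∞]`. -/
noncomputable def wnorm (a : ℕ → ℂ) : ℝ≥0∞ := ∑' n, ‖a n‖ₑ

/-- The value `f(z) = ∑ a_n z^n`. -/
noncomputable def fn (a : ℕ → ℂ) (z : ℂ) : ℂ := ∑' n, a n * z ^ n

/-- The family `F_δ`: the functions `f(z) = ∑ a_n z^n` (given by their coefficients) with
`‖f‖_W = 1` and `|f(z)| ≥ δ` for all `z` in the open unit disc. -/
def Fam (δ : ℝ) : Set (ℕ → ℂ) := {a | wnorm a = 1 ∧ ∀ z : ℂ, ‖z‖ < 1 → δ ≤ ‖fn a z‖}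

/-- The Taylor coefficients `b_n` of `1/f` at `0`. -/
noncomputable def recip (a : ℕ → ℂ) (n : ℕ) : ℂ :=
  iteratedDeriv n (fun z => (fn a z)⁻¹) 0 / (n.factorial : ℂ)

/-- `C(δ) = sup M(f)` over `f ∈ F_δ`, where `M(f) = ∑ |b_n|`. -/
noncomputable def C (δ : ℝ) : ℝ≥0∞ := ⨆ a ∈ Fam δ, wnorm (recip a)

/-- `δ₀ = inf {δ ∈ (0,1] : C(δ) < ∞}`. -/
noncomputable def delta0 : ℝ := sInf {δ : ℝ | 0 < δ ∧ δ ≤ 1 ∧ C δ < ∞}

/-! ### Power series -/

open Pool.Agent.W671.WI

theorem summable_of_wnorm {a : ℕ → ℂ} (ha : wnorm a = 1) : Summable fun n => ‖a n‖ := by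
  have h1 : ∑' n, ‖a n‖ₑ ≠ ∞ := by
    have : ∑' n, ‖a n‖ₑ = 1 := ha
    rw [this]
    exact ENNReal.one_ne_top
  have h2 := ENNReal.summable_toReal h1
  refine h2.congr fun n => ?_
  exact toReal_enorm _

theorem hasSum_fn {a : ℕ → ℂ} (ha : wnorm a = 1) {z : ℂ} (hz : ‖z‖ < 1) :
    HasSum (fun n => a n * z ^ n) (fn a z) := by
  refine Summable.hasSum (Summable.of_norm ?_)
  refine Summable.of_nonneg_of_le (fun n => norm_nonneg _) (fun n => ?_) (summable_of_wnorm ha)
  rw [norm_mul, norm_pow]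
  exact mul_le_of_le_one_right (norm_nonneg _) (pow_le_one₀ (norm_nonneg _) hz.le)

/-- power series with `HasSum` in the disc -/
theorem series {c : ℕ → ℂ} {g : ℂ → ℂ} (h : ∀ z : ℂ, ‖z‖ < 1 → HasSum (fun n => c n * z ^ n) (g z)) :
    HasFPowerSeriesOnBall g (FormalMultilinearSeries.ofScalars ℂ c) 0 1 := by
  constructor
  · refine le_of_forall_lt_imp_le_of_dense fun r hr ↦ ?_
    lift r to NNReal using hr.ne_top
    apply FormalMultilinearSeries.le_radius_of_summable
    have hr' : ‖((r : ℝ) : ℂ)‖ < 1 := by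
      rw [Complex.norm_real, Real.norm_of_nonneg r.coe_nonneg]
      exact_mod_cast hr
    refine (h ((r : ℝ) : ℂ) hr').summable.norm.congr fun n => ?_
    rw [FormalMultilinearSeries.ofScalars_norm, norm_mul, norm_pow, Complex.norm_real,
      Real.norm_of_nonneg r.coe_nonneg]
  · simp
  · intro y hy
    have hy' : ‖y‖ < 1 := by
      rw [← ENNReal.coe_one, Metric.eball_coe, NNReal.coe_one, mem_ball_zero_iff] at hy
      exact hy
    rw [zero_add]
    refine (h y hy').congr_fun fun n => ?_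
    rw [FormalMultilinearSeries.ofScalars_apply_eq]
    rw [smul_eq_mul]

theorem series_unique {c d : ℕ → ℂ} {g : ℂ → ℂ}
    (h : ∀ z : ℂ, ‖z‖ < 1 → HasSum (fun n => c n * z ^ n) (g z))
    (h' : ∀ z : ℂ, ‖z‖ < 1 → HasSum (fun n => d n * z ^ n) (g z)) : c = d := by
  have h3 := (series h).hasFPowerSeriesAt.eq_formalMultilinearSeries (series h').hasFPowerSeriesAt
  funext n
  have h4 := congrArg (fun s => FormalMultilinearSeries.coeff s n) h3
  simpa only [FormalMultilinearSeries.coeff_ofScalars] using h4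

theorem fn_diff {a : ℕ → ℂ} (ha : wnorm a = 1) : DifferentiableOn ℂ (fn a) (Metric.ball 0 1) := by
  have h := (series fun z hz => hasSum_fn ha hz).differentiableOn
  rw [show Metric.ball (0 : ℂ) 1 = Metric.eball (0 : ℂ) 1 by
    rw [← ENNReal.ofReal_one, Metric.eball_ofReal]]
  exact h

theorem fn_ne {δ : ℝ} (hδ : 0 < δ) {a : ℕ → ℂ} (ha : a ∈ Fam δ) {z : ℂ} (hz : ‖z‖ < 1) :
    fn a z ≠ 0 := by
  intro h0
  have := ha.2 z hz
  rw [h0, norm_zero] at this
  linarith

/-- the Taylor series of `1/f` converges to `1/f` in the disc -/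
theorem hasSum_recip {δ : ℝ} (hδ : 0 < δ) {a : ℕ → ℂ} (ha : a ∈ Fam δ) {z : ℂ} (hz : ‖z‖ < 1) :
    HasSum (fun n => recip a n * z ^ n) (fn a z)⁻¹ := by
  have h1 : DifferentiableOn ℂ (fun z => (fn a z)⁻¹) (Metric.ball 0 1) :=
    (fn_diff ha.1).inv fun z hz => fn_ne hδ ha (mem_ball_zero_iff.1 hz)
  have h2 := Complex.hasSum_taylorSeries_on_ball h1 (z := z) (mem_ball_zero_iff.2 hz)
  refine h2.congr_fun fun n => ?_
  rw [sub_zero, recip, smul_eq_mul, smul_eq_mul]
  ring

/-- the coefficients of `f` and of `1/f` are inverse to each other for the Cauchy product -/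
theorem cau_recip {δ : ℝ} (hδ : 0 < δ) {a : ℕ → ℂ} (ha : a ∈ Fam δ) :
    cau a (recip a) = fun n => if n = 0 then 1 else 0 := by
  refine series_unique (g := fun _ => 1) (fun z hz => ?_) (fun z hz => ?_)
  · have h1 := hasSum_fn ha.1 hz
    have h2 := hasSum_recip hδ ha hz
    have h3 := tsum_mul_tsum_eq_tsum_sum_antidiagonal_of_summable_norm h1.summable.norm
      h2.summable.norm
    have h4 := summable_norm_sum_mul_antidiagonal_of_summable_norm h1.summable.norm
      h2.summable.norm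
    rw [h1.tsum_eq, h2.tsum_eq, mul_inv_cancel₀ (fn_ne hδ ha hz)] at h3
    have e : ∀ n : ℕ, ∑ kl ∈ antidiagonal n, a kl.1 * z ^ kl.1 * (recip a kl.2 * z ^ kl.2) =
        cau a (recip a) n * z ^ n := by
      intro n
      unfold cau
      rw [Finset.sum_mul]
      refine Finset.sum_congr rfl fun p hp => ?_
      rw [← Finset.HasAntidiagonal.mem_antidiagonal.1 hp, pow_add]
      ring
    simp_rw [e] at h3 h4
    rw [h3]
    exact h4.of_norm.hasSum
  · have : (fun n : ℕ => (if n = 0 then (1 : ℂ) else 0) * z ^ n) = fun n => if n = 0 then 1 else 0 := by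
      funext n
      by_cases hn : n = 0
      · subst hn; simp
      · simp [hn]
    rw [this]
    exact hasSum_ite_eq 0 1

/-! ### The upper bound -/

theorem fn_zero (a : ℕ → ℂ) : fn a 0 = a 0 := by
  unfold fn
  rw [tsum_eq_single 0]
  · simp
  · intro n hn
    rw [zero_pow hn, mul_zero]

theorem norm_a0 {δ : ℝ} {a : ℕ → ℂ} (ha : a ∈ Fam δ) : δ ≤ ‖a 0‖ := by
  have := ha.2 0 (by simp)
  rwa [fn_zero] at this

theorem upper_aux {a b : ℕ → ℂ} (ha : wnorm a = 1) (hab : cau a b = fun n => if n = 0 then 1 else 0)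
    (h0 : 1 / 2 < ‖a 0‖) (N : ℕ) : (∑ n ∈ range N, ‖b n‖) * (2 * ‖a 0‖ - 1) ≤ 1 := by
  set S : ℝ := ∑ n ∈ range N, ‖b n‖ with hS
  -- the tail of `a`
  have hsum : Summable fun n => ‖a n‖ := summable_of_wnorm ha
  have htot : ∑' n, ‖a n‖ = 1 := by
    have h1 : ∑' n, ‖a n‖ₑ = 1 := ha
    have h2 : (∑' n, ‖a n‖ₑ).toReal = ∑' n, ‖a n‖ := by
      rw [ENNReal.tsum_toReal_eq (fun n => enorm_ne_top)]
      exact tsum_congr fun n => toReal_enorm _
    rw [← h2, h1, ENNReal.toReal_one]
  have htail : ∀ n : ℕ, ∑ i ∈ range n, ‖a (i + 1)‖ ≤ 1 - ‖a 0‖ := by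
    intro n
    have h1 := hsum.sum_le_tsum (range (n + 1)) (fun i _ => norm_nonneg _)
    rw [Finset.sum_range_succ', htot] at h1
    linarith
  -- the recursion
  have hrec : ∀ n : ℕ, ‖a 0‖ * ‖b n‖ ≤ (if n = 0 then 1 else 0) +
      ∑ i ∈ range n, ‖a (i + 1)‖ * ‖b (n - 1 - i)‖ := by
    intro n
    have h1 := congrFun hab n
    unfold cau at h1
    rw [Finset.Nat.sum_antidiagonal_eq_sum_range_succ_mk, Finset.sum_range_succ'] at h1
    simp only [Nat.sub_zero] at h1
    have h2 : a 0 * b n = (if n = 0 then 1 else 0) - ∑ i ∈ range n, a (i + 1) * b (n - (i + 1)) := by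
      rw [← h1]; ring
    rw [← norm_mul, h2]
    refine (norm_sub_le _ _).trans (add_le_add ?_ ?_)
    · split_ifs <;> simp
    · refine (norm_sum_le _ _).trans (le_of_eq (Finset.sum_congr rfl fun i hi => ?_))
      rw [norm_mul, Nat.sub_sub, Nat.add_comm 1 i]
  have hmain : ‖a 0‖ * S ≤ 1 + (1 - ‖a 0‖) * S := by
    rw [hS, Finset.mul_sum]
    refine (Finset.sum_le_sum fun n _ => hrec n).trans ?_
    rw [Finset.sum_add_distrib]
    refine add_le_add ?_ ?_
    · rw [Finset.sum_ite_eq']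
      split_ifs <;> norm_num
    · -- exchange the sums
      have h1 : ∀ n ∈ range N, ∑ i ∈ range n, ‖a (i + 1)‖ * ‖b (n - 1 - i)‖ =
          ∑ i ∈ range N, ‖a (i + 1)‖ * (if i < n then ‖b (n - 1 - i)‖ else 0) := by
        intro n hn
        have hn' := Finset.mem_range.1 hn
        simp_rw [mul_ite, mul_zero]
        rw [← Finset.sum_filter]
        refine Finset.sum_congr ?_ fun _ _ => rfl
        ext i
        simp only [Finset.mem_filter, Finset.mem_range]
        omega
      rw [Finset.sum_congr rfl h1, Finset.sum_comm]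
      have h2 : ∀ i ∈ range N, ∑ n ∈ range N,
          ‖a (i + 1)‖ * (if i < n then ‖b (n - 1 - i)‖ else 0) ≤ ‖a (i + 1)‖ * S := by
        intro i _
        rw [← Finset.mul_sum]
        refine mul_le_mul_of_nonneg_left ?_ (norm_nonneg _)
        rw [← Finset.sum_filter]
        calc ∑ n ∈ (range N).filter (fun n => i < n), ‖b (n - 1 - i)‖
            = ∑ m ∈ ((range N).filter (fun n => i < n)).image (fun n => n - 1 - i), ‖b m‖ := by
              rw [Finset.sum_image]
              intro x hx y hy hxy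
              simp only [Finset.coe_filter, Set.mem_ofPred_eq] at hx hy
              simp only at hxy
              omega
          _ ≤ S := by
              refine Finset.sum_le_sum_of_subset_of_nonneg ?_ fun _ _ _ => norm_nonneg _
              intro m hm
              obtain ⟨n, hn, rfl⟩ := Finset.mem_image.1 hm
              simp only [Finset.mem_filter, Finset.mem_range] at hn ⊢
              omega
      refine (Finset.sum_le_sum h2).trans ?_
      rw [← Finset.sum_mul]
      exact mul_le_mul_of_nonneg_right (htail N) (Finset.sum_nonneg fun _ _ => norm_nonneg _)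
  nlinarith

theorem upper {δ : ℝ} (hδ : 1 / 2 < δ) : C δ ≤ ENNReal.ofReal (1 / (2 * δ - 1)) := by
  unfold C
  refine iSup₂_le fun a ha => ?_
  have h0 := norm_a0 ha
  have hc := cau_recip (by linarith : (0 : ℝ) < δ) ha
  unfold wnorm
  rw [ENNReal.tsum_eq_iSup_nat]
  refine iSup_le fun N => ?_
  have h1 := upper_aux ha.1 hc (by linarith) N
  have h2 : ∑ n ∈ range N, ‖recip a n‖ₑ = ENNReal.ofReal (∑ n ∈ range N, ‖recip a n‖) := by
    rw [ENNReal.ofReal_sum_of_nonneg fun _ _ => norm_nonneg _]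
    exact Finset.sum_congr rfl fun n _ => (ofReal_norm _).symm
  rw [h2]
  apply ENNReal.ofReal_le_ofReal
  rw [le_div_iff₀ (by linarith)]
  refine le_trans ?_ h1
  exact mul_le_mul_of_nonneg_left (by linarith) (Finset.sum_nonneg fun _ _ => norm_nonneg _)

/-! ### The lower bound -/

theorem cau_assoc (a b c : ℕ → ℂ) : cau (cau a b) c = cau a (cau b c) := by
  have h : ∀ a b : ℕ → ℂ, PowerSeries.mk (cau a b) = PowerSeries.mk a * PowerSeries.mk b := by
    intro a b
    ext n
    rw [PowerSeries.coeff_mul, PowerSeries.coeff_mk]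
    simp only [PowerSeries.coeff_mk]
    rfl
  have h2 : PowerSeries.mk (cau (cau a b) c) = PowerSeries.mk (cau a (cau b c)) := by
    rw [h, h, h, h, mul_assoc]
  funext n
  have := congrArg (PowerSeries.coeff n) h2
  simpa only [PowerSeries.coeff_mk] using this

theorem cau_delta (a : ℕ → ℂ) : cau a (fun n => if n = 0 then 1 else 0) = a := by
  funext n
  unfold cau
  rw [Finset.Nat.sum_antidiagonal_eq_sum_range_succ_mk, Finset.sum_range_succ, Finset.sum_eq_zero]
  · simp
  · intro k hk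
    have := Finset.mem_range.1 hk
    show a k * (if n - k = 0 then 1 else 0) = 0
    rw [if_neg (by omega), mul_zero]

theorem fn_pc (f : Polynomial ℂ) (z : ℂ) : fn (pc f) z = f.eval z := by
  unfold fn pc
  rw [tsum_eq_sum (s := range (f.natDegree + 1)), Polynomial.eval_eq_sum_range]
  intro n hn
  rw [Finset.mem_range, not_lt] at hn
  rw [Polynomial.coeff_eq_zero_of_natDegree_lt (by omega), zero_mul]

/-- the main family of examples -/
theorem example_bound {δ A : ℝ} (hδ : 0 < δ) (hA : δ < A) (hA2 : 1 / 2 < A) (hA1 : A < 1)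
    (K n : ℕ) (hn : 0 < n) :
    ENNReal.ofReal (∑ k ∈ range (K + 1), (n.descFactorial k : ℝ) * (((1 - A) / A) / n) ^ k) ≤
      ENNReal.ofReal (A * (1 + ((1 - A) / A) ^ (K + 1))) * C δ := by
  set r : ℝ := (1 - A) / A with hr
  have hA0 : 0 < A := by linarith
  have hr0 : 0 < r := div_pos (by linarith) hA0
  have hAr : A * r = 1 - A := by rw [hr]; field_simp
  have hr1 : r < 1 := by rw [hr, div_lt_one hA0]; linarith
  have hn' : (0 : ℝ) < n := by exact_mod_cast hn
  -- choice of the flat block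
  obtain ⟨s, hs⟩ : ∃ s : ℕ, (3 / 4 : ℝ) ^ s < (A - δ) / A :=
    exists_pow_lt_of_lt_one (div_pos (by linarith) hA0) (by norm_num)
  have hblk := qq_blk s
  set D : ℕ := (K + 1) * (2 * 4 ^ s) with hD
  have hD0 : 0 < D := by rw [hD]; positivity
  set w := wn D (qq s) n with hw
  set x : Polynomial ℂ := Polynomial.C ((-(r / n) : ℝ) : ℂ) * w with hx
  set f : Polynomial ℂ := Polynomial.C ((A : ℝ) : ℂ) * (1 - x) with hf
  have en : ∀ t : ℝ, 0 ≤ t → ‖((t : ℝ) : ℂ)‖ₑ = ENNReal.ofReal t := by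
    intro t ht
    rw [← ofReal_norm, Complex.norm_real, Real.norm_of_nonneg ht]
  have en' : ∀ t : ℝ, 0 ≤ t → ‖((-t : ℝ) : ℂ)‖ₑ = ENNReal.ofReal t := by
    intro t ht
    rw [← ofReal_norm, Complex.norm_real, norm_neg, Real.norm_of_nonneg ht]
  have hxn : N1 (pc x) ≤ ENNReal.ofReal r := by
    rw [hx, N1_C_mul, en' _ (by positivity)]
    refine (mul_le_mul_right (wn_norm_le D s n hD0) _).trans ?_
    rw [← ENNReal.ofReal_natCast, ← ENNReal.ofReal_mul (by positivity)]
    apply le_of_eq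
    congr 1
    field_simp
  have hone : N1 (pc (1 : Polynomial ℂ)) = 1 := by
    rw [← Polynomial.C_1, N1_C]; simp
  have hneg : ∀ p : Polynomial ℂ, N1 (pc (-p)) = N1 (pc p) := by
    intro p
    unfold N1 pc
    exact tsum_congr fun n => by rw [Polynomial.coeff_neg, enorm_neg]
  -- the norm of `f` is one
  have hf1 : N1 (pc f) ≤ 1 := by
    rw [hf, N1_C_mul, en _ hA0.le, sub_eq_add_neg]
    calc ENNReal.ofReal A * N1 (pc (1 + -x)) ≤ ENNReal.ofReal A * (1 + ENNReal.ofReal r) := by
          refine mul_le_mul_right ((N1_add_le _ _).trans ?_) _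
          rw [hone, hneg]
          exact add_le_add le_rfl hxn
      _ = 1 := by
          rw [← ENNReal.ofReal_one, ← ENNReal.ofReal_add zero_le_one hr0.le,
            ← ENNReal.ofReal_mul hA0.le]
          congr 1
          linarith
  have hK1 : (K + 1) * (2 * 4 ^ s) ≤ D := le_rfl
  have hf2 : 1 ≤ N1 (pc f) := by
    have h1 := lower hblk (Nat.succ_pos K) hK1 n 1 (by omega)
      (fun k => if k = 0 then ((A : ℝ) : ℂ) else ((A * (r / n) : ℝ) : ℂ))
    have h2 : PP (1 + 1) (wn D (qq s) n)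
        (fun k => if k = 0 then ((A : ℝ) : ℂ) else ((A * (r / n) : ℝ) : ℂ)) = f := by
      unfold PP
      rw [Finset.sum_range_succ, Finset.sum_range_one]
      beta_reduce
      rw [if_pos rfl, if_neg one_ne_zero, pow_zero, pow_one, mul_one, hf, hx, ← hw]
      rw [mul_sub, mul_one, ← mul_assoc, ← Polynomial.C_mul, sub_eq_add_neg, ← neg_mul,
        ← Polynomial.C_neg]
      congr 3
      push_cast
      ring
    rw [h2, Finset.sum_range_succ, Finset.sum_range_one, if_pos rfl, if_neg one_ne_zero,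
      en _ hA0.le, en _ (by positivity), Nat.descFactorial_zero, Nat.descFactorial_one,
      Nat.cast_one, one_mul, ← ENNReal.ofReal_natCast, ← ENNReal.ofReal_mul (by positivity),
      ← ENNReal.ofReal_add hA0.le (by positivity)] at h1
    refine le_trans (le_of_eq ?_) h1
    rw [← ENNReal.ofReal_one]
    congr 1
    have : (n : ℝ) * (A * (r / n)) = A * r := by field_simp
    rw [this]
    linarith
  have hmem : pc f ∈ Fam δ := by
    refine ⟨le_antisymm hf1 hf2, fun z hz => ?_⟩
    rw [fn_pc, hf, Polynomial.eval_mul, Polynomial.eval_C, norm_mul, Complex.norm_real,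
      Real.norm_of_nonneg hA0.le, Polynomial.eval_sub, Polynomial.eval_one]
    have h1 : ‖x.eval z‖ ≤ (3 / 4) ^ s := by
      rw [hx, Polynomial.eval_mul, Polynomial.eval_C, norm_mul, Complex.norm_real, norm_neg,
        Real.norm_of_nonneg (by positivity)]
      have h2 := wn_eval D s n hz.le
      calc r / n * ‖w.eval z‖ ≤ r / n * (n * (3 / 4) ^ s) :=
            mul_le_mul_of_nonneg_left h2 (by positivity)
        _ = r * (3 / 4) ^ s := by field_simp
        _ ≤ 1 * (3 / 4) ^ s := mul_le_mul_of_nonneg_right hr1.le (by positivity)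
        _ = _ := one_mul _
    have h3 : 1 - (3 / 4) ^ s ≤ ‖1 - x.eval z‖ := by
      have := norm_sub_norm_le (1 : ℂ) (x.eval z)
      rw [norm_one] at this
      linarith
    have h4 : A * (3 / 4) ^ s < A - δ := by
      rw [lt_div_iff₀ hA0] at hs
      linarith
    calc δ ≤ A * (1 - (3 / 4) ^ s) := by linarith
      _ ≤ A * ‖1 - x.eval z‖ := mul_le_mul_of_nonneg_left h3 hA0.le
  have hcau := cau_recip hδ hmem
  -- the geometric sum
  set G : Polynomial ℂ := ∑ k ∈ range (K + 1), x ^ k with hG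
  have hGf : G * f = Polynomial.C ((A : ℝ) : ℂ) * (1 - x ^ (K + 1)) := by
    rw [hf, mul_left_comm, hG, geom_sum_mul_neg]
  have hGb : pc G = cau (pc (Polynomial.C ((A : ℝ) : ℂ) * (1 - x ^ (K + 1)))) (recip (pc f)) := by
    rw [← hGf, pc_mul, cau_assoc, hcau, cau_delta]
  have hup : N1 (pc G) ≤ ENNReal.ofReal (A * (1 + r ^ (K + 1))) * C δ := by
    rw [hGb]
    refine (N1_cau_le _ _).trans ?_
    refine mul_le_mul' ?_ ?_
    · rw [N1_C_mul, en _ hA0.le, ENNReal.ofReal_mul hA0.le]
      refine mul_le_mul_right ?_ _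
      rw [sub_eq_add_neg]
      refine (N1_add_le _ _).trans ?_
      rw [hone, hneg, ENNReal.ofReal_add zero_le_one (by positivity), ENNReal.ofReal_one]
      refine add_le_add le_rfl ((N1_pow_le _ _).trans ?_)
      rw [ENNReal.ofReal_pow hr0.le]
      gcongr
    · exact le_iSup₂ (f := fun a (_ : a ∈ Fam δ) => wnorm (recip a)) (pc f) hmem
  refine le_trans ?_ hup
  have hlow := lower hblk (Nat.succ_pos K) hK1 n K (by omega) (fun k => ((-(r / n) : ℝ) : ℂ) ^ k)
  have hPG : PP (K + 1) (wn D (qq s) n) (fun k => ((-(r / n) : ℝ) : ℂ) ^ k) = G := by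
    unfold PP
    rw [hG, hx]
    refine Finset.sum_congr rfl fun k _ => ?_
    rw [mul_pow, Polynomial.C_pow]
  rw [hPG] at hlow
  refine le_trans (le_of_eq ?_) hlow
  rw [ENNReal.ofReal_sum_of_nonneg fun _ _ => by positivity]
  refine Finset.sum_congr rfl fun k _ => ?_
  rw [ENNReal.ofReal_mul (by positivity), ENNReal.ofReal_natCast, enorm_pow, en' _ (by positivity),
    ENNReal.ofReal_pow (by positivity)]

theorem tendsto_desc (k : ℕ) (r : ℝ) :
    Tendsto (fun n : ℕ => (n.descFactorial k : ℝ) * (r / n) ^ k) atTop (𝓝 (r ^ k)) := by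
  have h1 : Tendsto (fun n : ℕ => (n.descFactorial k : ℝ) / (n : ℝ) ^ k) atTop (𝓝 1) := by
    have hlow : Tendsto (fun n : ℕ => (1 - (k : ℝ) / n) ^ k) atTop (𝓝 1) := by
      have h2 : Tendsto (fun n : ℕ => (k : ℝ) / n) atTop (𝓝 0) :=
        tendsto_const_div_atTop_nhds_zero_nat _
      have h3 := ((tendsto_const_nhds (x := (1 : ℝ))).sub h2).pow k
      simpa using h3
    refine tendsto_of_tendsto_of_tendsto_of_le_of_le' hlow tendsto_const_nhds ?_ ?_
    · filter_upwards [eventually_ge_atTop (k + 1)] with n hn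
      have hn0 : (0 : ℝ) < n := by
        have : 0 < n := by omega
        exact_mod_cast this
      rw [le_div_iff₀ (by positivity), ← mul_pow]
      have e1 : (1 - (k : ℝ) / n) * n = n - k := by field_simp
      rw [e1]
      have h4 : ((n + 1 - k : ℕ) : ℝ) ^ k ≤ n.descFactorial k := by
        exact_mod_cast Nat.pow_sub_le_descFactorial n k
      refine le_trans ?_ h4
      have h5 : ((n + 1 - k : ℕ) : ℝ) = n + 1 - k := by
        rw [Nat.cast_sub (by omega)]
        push_cast
        ring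
      rw [h5]
      have h6 : (k : ℝ) ≤ n := by exact_mod_cast (by omega : k ≤ n)
      exact pow_le_pow_left₀ (by linarith) (by linarith) k
    · filter_upwards [eventually_ge_atTop 1] with n hn
      have hn0 : (0 : ℝ) < n := by exact_mod_cast hn
      rw [div_le_one (by positivity)]
      exact_mod_cast Nat.descFactorial_le_pow n k
  have h2 := h1.mul_const (r ^ k)
  rw [one_mul] at h2
  refine h2.congr fun n => ?_
  rw [div_pow]
  ring

theorem lower_real {δ A c : ℝ} (hδ : 0 < δ) (hA : δ < A) (hA2 : 1 / 2 < A) (hA1 : A < 1)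
    (hc0 : 0 ≤ c) (hc : C δ ≤ ENNReal.ofReal c) : 1 / (2 * A - 1) ≤ c := by
  set r : ℝ := (1 - A) / A with hr
  have hA0 : 0 < A := by linarith
  have hr0 : 0 < r := div_pos (by linarith) hA0
  have hAr : A * r = 1 - A := by rw [hr]; field_simp
  have hr1 : r < 1 := by rw [hr, div_lt_one hA0]; linarith
  have h1 : ∀ K : ℕ, ∑ k ∈ range (K + 1), r ^ k ≤ A * (1 + r ^ (K + 1)) * c := by
    intro K
    have hlim : Tendsto (fun n : ℕ => ∑ k ∈ range (K + 1), (n.descFactorial k : ℝ) * (r / n) ^ k)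
        atTop (𝓝 (∑ k ∈ range (K + 1), r ^ k)) :=
      tendsto_finsetSum _ fun k _ => tendsto_desc k r
    refine le_of_tendsto hlim ?_
    filter_upwards [eventually_ge_atTop 1] with n hn
    have h2 := example_bound hδ hA hA2 hA1 K n hn
    rw [← hr] at h2
    have h3 := h2.trans (mul_le_mul_right hc _)
    rw [← ENNReal.ofReal_mul (by positivity)] at h3
    exact (ENNReal.ofReal_le_ofReal_iff (by positivity)).1 h3
  have hlim1 : Tendsto (fun K : ℕ => ∑ k ∈ range (K + 1), r ^ k) atTop (𝓝 (1 - r)⁻¹) :=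
    ((hasSum_geometric_of_lt_one hr0.le hr1).tendsto_sum_nat).comp (tendsto_add_atTop_nat 1)
  have hlim2 : Tendsto (fun K : ℕ => A * (1 + r ^ (K + 1)) * c) atTop (𝓝 (A * (1 + 0) * c)) := by
    have h2 : Tendsto (fun K : ℕ => r ^ (K + 1)) atTop (𝓝 0) :=
      (tendsto_pow_atTop_nhds_zero_of_lt_one hr0.le hr1).comp (tendsto_add_atTop_nat 1)
    exact ((h2.const_add 1).const_mul A).mul_const c
  have h2 := le_of_tendsto_of_tendsto' hlim1 hlim2 h1
  rw [add_zero, mul_one] at h2
  have h3 : A * (1 - r) = 2 * A - 1 := by rw [mul_sub, hAr]; ring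
  have h4 : 0 < 1 - r := by linarith
  rw [inv_le_iff_one_le_mul₀ h4] at h2
  rw [div_le_iff₀ (by linarith), ← h3]
  linarith

/-- the constant function one -/
theorem one_le_C : 1 ≤ C 1 := by
  have hp : pc (1 : Polynomial ℂ) = fun n => if n = 0 then 1 else 0 := by
    funext n
    unfold pc
    rw [Polynomial.coeff_one]
  have hmem : pc (1 : Polynomial ℂ) ∈ Fam 1 := by
    refine ⟨?_, fun z _ => ?_⟩
    · have : wnorm (pc (1 : Polynomial ℂ)) = N1 (pc (1 : Polynomial ℂ)) := rfl
      rw [this, ← Polynomial.C_1, N1_C]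
      simp
    · rw [fn_pc]; simp
  have h1 := congrFun (cau_recip one_pos hmem) 0
  unfold cau at h1
  rw [Finset.Nat.antidiagonal_zero, Finset.sum_singleton] at h1
  simp only [if_pos] at h1
  rw [hp] at h1
  simp only [if_pos, one_mul] at h1
  have h2 : (1 : ℝ≥0∞) ≤ wnorm (recip (pc (1 : Polynomial ℂ))) := by
    unfold wnorm
    have h3 := ENNReal.le_tsum (f := fun n => ‖recip (pc (1 : Polynomial ℂ)) n‖ₑ) 0
    refine le_trans (le_of_eq ?_) h3
    rw [hp, h1]
    simp
  exact h2.trans (le_iSup₂ (f := fun a (_ : a ∈ Fam 1) => wnorm (recip a)) _ hmem)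

theorem C_eq {δ : ℝ} (hδ : 1 / 2 < δ) (hδ1 : δ ≤ 1) : C δ = ENNReal.ofReal (1 / (2 * δ - 1)) := by
  refine le_antisymm (upper hδ) ?_
  rcases hδ1.lt_or_eq with h1 | rfl
  · have hne : C δ ≠ ∞ := ((upper hδ).trans_lt ENNReal.ofReal_lt_top).ne
    have hc : C δ ≤ ENNReal.ofReal (C δ).toReal := (ENNReal.ofReal_toReal hne).ge
    rw [← ENNReal.ofReal_toReal hne]
    apply ENNReal.ofReal_le_ofReal
    have hlim : Tendsto (fun A : ℝ => 1 / (2 * A - 1)) (𝓝[>] δ) (𝓝 (1 / (2 * δ - 1))) := by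
      have h2 : ContinuousAt (fun A : ℝ => 1 / (2 * A - 1)) δ := by
        refine ContinuousAt.div continuousAt_const (by fun_prop) ?_
        have : 0 < 2 * δ - 1 := by linarith
        exact this.ne'
      exact h2.tendsto.mono_left nhdsWithin_le_nhds
    refine le_of_tendsto hlim ?_
    filter_upwards [Ioo_mem_nhdsGT h1] with A hA
    exact lower_real (by linarith) hA.1 (by linarith [hA.1]) hA.2 ENNReal.toReal_nonneg hc
  · have : (1 / (2 * 1 - 1) : ℝ) = 1 := by norm_num
    rw [this, ENNReal.ofReal_one]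
    exact one_le_C

theorem C_top {δ : ℝ} (hδ0 : 0 < δ) (hδ : δ ≤ 1 / 2) : C δ = ∞ := by
  by_contra hne
  have hc : C δ ≤ ENNReal.ofReal (C δ).toReal := (ENNReal.ofReal_toReal hne).ge
  set c := (C δ).toReal with hcdef
  have hc0 : 0 ≤ c := ENNReal.toReal_nonneg
  -- choose `A` close to one half
  set A : ℝ := 1 / 2 + 1 / (4 * (c + 1)) with hA
  have h1 : (0 : ℝ) < 1 / (4 * (c + 1)) := by positivity
  have h2 : 1 / (4 * (c + 1)) ≤ 1 / 4 := by
    apply one_div_le_one_div_of_le (by norm_num)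
    linarith
  have h3 := lower_real hδ0 (by rw [hA]; linarith : δ < A) (by rw [hA]; linarith)
    (by rw [hA]; linarith) hc0 hc
  have h4 : 1 / (2 * A - 1) = 2 * (c + 1) := by
    have h5 : 2 * A - 1 = 1 / (2 * (c + 1)) := by
      rw [hA]
      field_simp
      ring
    rw [h5, one_div_one_div]
  rw [h4] at h3
  linarith

/-- **Answer to Q1.** `δ₀ = 1/2`; moreover `C(δ) = 1 / (2 δ - 1)` for `1/2 < δ ≤ 1` and
`C(δ) = ∞` for `0 < δ ≤ 1/2`. -/
theorem result : delta0 = 1 / 2 ∧
    ∀ δ : ℝ, 0 < δ → δ ≤ 1 → C δ = if 1 / 2 < δ then ENNReal.ofReal (1 / (2 * δ - 1)) else ∞ := by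
  refine ⟨?_, fun δ h0 h1 => ?_⟩
  · have hset : {δ : ℝ | 0 < δ ∧ δ ≤ 1 ∧ C δ < ∞} = Set.Ioc (1 / 2) 1 := by
      ext δ
      simp only [Set.mem_ofPred_eq, Set.mem_Ioc]
      constructor
      · rintro ⟨h0, h1, h2⟩
        refine ⟨?_, h1⟩
        by_contra hcon
        rw [C_top h0 (not_lt.1 hcon)] at h2
        exact lt_irrefl _ h2
      · rintro ⟨h0, h1⟩
        refine ⟨by linarith, h1, ?_⟩
        rw [C_eq h0 h1]
        exact ENNReal.ofReal_lt_top
    unfold delta0
    rw [hset, csInf_Ioc (by norm_num)]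
  · split_ifs with h
    · exact C_eq h h1
    · exact C_top h0 (not_lt.1 h)

end Pool.Agent.Results.MP_de3d06_an.ExactConstant
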